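import Pool.Agent.H452.NCI.Fam

set_option autoImplicit false
set_option linter.unusedSectionVars false
set_option linter.unusedVariables false

namespace Pool.Agent.H452.NCI

open scoped LinearAlgebra.Projectivization MatrixGroups Topology
open Pool.Agent.H138R3.NC

theorem continuous_Dg {T : Type} [TopologicalSpace T] (w : T → Fin 4 → ℝˣ)
    (hw : ∀ i, Continuous fun t => (w t i : ℝ)) : Continuous fun t => Dg (w t) := by
  rw [Units.continuous_iff]
  constructor
  · show Continuous fun t => Matrix.diagonal (fun i => (w t i : ℝ))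
    exact Continuous.matrix_diagonal (continuous_pi hw)
  · have h : ∀ t, (((Dg (w t))⁻¹ : GL (Fin 4) ℝ) : Matrix (Fin 4) (Fin 4) ℝ) =
        Matrix.diagonal (fun i => (w t i : ℝ)⁻¹) := by
      intro t
      rw [← map_inv, Dg_val]
      congr 1
      funext i
      simp
    have h2 : Continuous fun t => Matrix.diagonal (fun i => (w t i : ℝ)⁻¹) :=
      Continuous.matrix_diagonal (continuous_pi fun i =>
        (hw i).inv₀ (fun t => (w t i).ne_zero))
    exact h2.congr fun t => (h t).symm

theorem continuous_std {T : Type} [TopologicalSpace T] (f : T → ℝˣ)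
    (hf : Continuous fun t => (f t : ℝ)) (y : DihedralGroup 0) :
    Continuous fun t => std (f t) (f t) y := by
  have hu : ∀ i, Continuous fun t => ((uu (f t) (f t) i : ℝˣ) : ℝ) := by
    intro i
    fin_cases i
    · exact hf
    · show Continuous fun t => (((f t)⁻¹ : ℝˣ) : ℝ)
      simp only [Units.val_inv_eq_inv_val]
      exact hf.inv₀ (fun t => (f t).ne_zero)
    · show Continuous fun t => ((-(f t) : ℝˣ) : ℝ)
      simp only [Units.val_neg]
      exact hf.neg
    · show Continuous fun t => (((-(f t))⁻¹ : ℝˣ) : ℝ)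
      simp only [Units.val_inv_eq_inv_val, Units.val_neg]
      exact hf.neg.inv₀ (fun t => neg_ne_zero.2 (f t).ne_zero)
  have hk : ∀ k : ℤ, Continuous fun t => Dg (uu (f t) (f t) ^ k) := by
    intro k
    apply continuous_Dg
    intro i
    have : ∀ t, (((uu (f t) (f t) ^ k) i : ℝˣ) : ℝ) = ((uu (f t) (f t) i : ℝˣ) : ℝ) ^ k := by
      intro t
      rw [Pi.pow_apply, Units.val_zpow_eq_zpow_val]
    simp only [this]
    exact (hu i).zpow₀ k (fun t => Or.inl (uu (f t) (f t) i).ne_zero)
  obtain ⟨k, hy | hy⟩ := dih_cases y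
  · have : ∀ t, std (f t) (f t) y = Matrix.ProjGenLinGroup.mk (Dg (uu (f t) (f t) ^ k)) := by
      intro t
      rw [hy, ← dih_r]
      rfl
    simp only [this]
    exact continuous_mkPGL.comp (hk k)
  · have : ∀ t, std (f t) (f t) y = Matrix.ProjGenLinGroup.mk (gT * Dg (uu (f t) (f t) ^ k)) := by
      intro t
      rw [hy, ← dih_sr]
      rfl
    simp only [this]
    exact continuous_mkPGL.comp (continuous_const.mul (hk k))

end Pool.Agent.H452.NCI
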