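import Pool.Agent.H452.NCI.Not

set_option autoImplicit false
set_option linter.unusedSectionVars false
set_option linter.unusedVariables false

namespace Pool.Agent.H452.NCI

open scoped LinearAlgebra.Projectivization MatrixGroups Topology
open Pool.Agent.H138R3.NC

/-- For every unit `a > 1` the group `std a a` is not convex cocompact. -/
theorem not_cc (a : ℝˣ) (ha : 1 < (a : ℝ)) : ¬ ConvexCocompact (std a a).range := by
  letI : Par := ⟨a, ha⟩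
  exact std_not_cc

theorem Fd_base' (a : ℝˣ) (x : ℝ) : Fd x (gT, gT * gG a a) =
    (x - a) * (x - (a : ℝ)⁻¹) * (x + a) * (x + (a : ℝ)⁻¹) := by
  unfold Fd
  simp only [gTG_sq, gT_sq, ← mul_assoc, one_mul]
  have : (x * √((1 : GL (Fin 4) ℝ).1 0 0) * √((1 : GL (Fin 4) ℝ).1 0 0)) = x := by simp
  have e2 : gT * gG a a * gT * gG a a = 1 := by
    rw [gT_gG_gT, inv_mul_cancel]
  rw [e2, this]
  have e3 : (x • (1 : Matrix (Fin 4) (Fin 4) ℝ) - (gG a a).1) =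
      Matrix.diagonal ![x - a, x - (a : ℝ)⁻¹, x + a, x + (a : ℝ)⁻¹] := by
    rw [gG, Dg_val]
    ext i j
    fin_cases i <;> fin_cases j <;>
      simp [uu, Matrix.diagonal, Matrix.one_apply]
  rw [e3, Matrix.det_diagonal, Fin.prod_univ_four]
  simp

theorem mem_Oset {a : ℝˣ} (h1 : 3 / 2 < (a : ℝ)) (h2 : (a : ℝ) < 3) :
    (gT, gT * gG a a) ∈ Oset := by
  have hi0 : 0 < (a : ℝ)⁻¹ := inv_pos.2 (by linarith)
  have hi1 : (a : ℝ)⁻¹ < 1 := inv_lt_one_of_one_lt₀ (by linarith)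
  refine ⟨?_, ?_, ?_, ?_, ?_, ?_⟩
  · show 0 < (gT * gT).1 0 0
    rw [gT_sq]; simp
  · show 0 < ((gT * gG a a) * (gT * gG a a)).1 0 0
    rw [gTG_sq]; simp
  · rw [Fd_base']
    have k1 : (3 / 2 - (a : ℝ)) < 0 := by linarith
    have k2 : 0 < (3 / 2 - (a : ℝ)⁻¹) := by linarith
    have k3 : 0 < (3 / 2 + (a : ℝ)) := by linarith
    have k4 : 0 < (3 / 2 + (a : ℝ)⁻¹) := by linarith
    exact mul_neg_of_neg_of_pos (mul_neg_of_neg_of_pos (mul_neg_of_neg_of_pos k1 k2) k3) k4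
  · rw [Fd_base']
    have k1 : 0 < (3 - (a : ℝ)) := by linarith
    have k2 : 0 < (3 - (a : ℝ)⁻¹) := by linarith
    have k3 : 0 < (3 + (a : ℝ)) := by linarith
    have k4 : 0 < (3 + (a : ℝ)⁻¹) := by linarith
    exact mul_pos (mul_pos (mul_pos k1 k2) k3) k4
  · rw [Fd_base']
    have k1 : (-(3 / 2) - (a : ℝ)) < 0 := by linarith
    have k2 : (-(3 / 2) - (a : ℝ)⁻¹) < 0 := by linarith
    have k3 : 0 < (-(3 / 2) + (a : ℝ)) := by linarith
    have k4 : (-(3 / 2) + (a : ℝ)⁻¹) < 0 := by linarith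
    exact mul_neg_of_pos_of_neg (mul_pos (mul_pos_of_neg_of_neg k1 k2) k3) k4
  · rw [Fd_base']
    have k1 : (-3 - (a : ℝ)) < 0 := by linarith
    have k2 : (-3 - (a : ℝ)⁻¹) < 0 := by linarith
    have k3 : (-3 + (a : ℝ)) < 0 := by linarith
    have k4 : (-3 + (a : ℝ)⁻¹) < 0 := by linarith
    exact mul_pos_of_neg_of_neg (mul_neg_of_pos_of_neg (mul_pos_of_neg_of_neg k1 k2) k3) k4

theorem mem_Uset {a : ℝˣ} (h1 : 3 / 2 < (a : ℝ)) (h2 : (a : ℝ) < 3) :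
    (std a a (.sr 0), std a a (.sr 1)) ∈ Uset := by
  refine ⟨_, mem_Oset h1 h2, ?_⟩
  have e0 : std a a (.sr 0) = Matrix.ProjGenLinGroup.mk gT := by
    show Matrix.ProjGenLinGroup.mk (gT * gG a a ^ (0 : ℤ)) = _
    rw [zpow_zero, mul_one]
  have e1 : std a a (.sr 1) = Matrix.ProjGenLinGroup.mk (gT * gG a a) := by
    show Matrix.ProjGenLinGroup.mk (gT * gG a a ^ (1 : ℤ)) = _
    rw [zpow_one]
  rw [e0, e1]
  rfl

theorem scalar_eq_Dg (c : ℝˣ) :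
    Matrix.GeneralLinearGroup.scalar (Fin 4) c = Dg (fun _ => c) := by
  apply Units.ext
  rw [Matrix.GeneralLinearGroup.coe_scalar, Dg_val]
  rfl

theorem Dg_det (w : Fin 4 → ℝˣ) : (Dg w).1.det = w 0 * w 1 * w 2 * w 3 := by
  rw [Dg_val, Matrix.det_diagonal, Fin.prod_univ_four]

/-- The parameter is an invariant of the conjugacy class. -/
theorem param_eq {a b : ℝˣ} (ha : 1 < (a : ℝ)) (hb : 1 < (b : ℝ)) (g : PGL(Fin 4, ℝ))
    (h : std b b (.r 1) = g * std a a (.r 1) * g⁻¹) : (a : ℝ) = b := by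
  obtain ⟨G, rfl⟩ := Matrix.ProjGenLinGroup.mk_surjective g
  have e3 : ∀ a : ℝˣ, std a a (.r 1) = Matrix.ProjGenLinGroup.mk (gG a a) := by
    intro a
    show Matrix.ProjGenLinGroup.mk (gG a a ^ (1 : ℤ)) = _
    rw [zpow_one]
  rw [e3, e3, ← map_inv, ← map_mul, ← map_mul, Matrix.ProjGenLinGroup.mk_eq_mk_iff] at h
  obtain ⟨c, hc⟩ := h
  rw [scalar_eq_Dg, gG, gG, ← map_mul] at hc
  have hdet := congrArg (fun M : GL (Fin 4) ℝ => M.1.det) hc
  rw [Units.val_mul, Units.val_mul, Matrix.det_units_conj, Dg_det, Dg_det] at hdet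
  have hc2 : Dg ((uu b b * fun _ => c) ^ 2) = G * Dg (uu a a ^ 2) * G⁻¹ := by
    rw [map_pow, hc, conj_pow, map_pow]
  have htr := congrArg (fun M : GL (Fin 4) ℝ => M.1.trace) hc2
  rw [Units.val_mul, Units.val_mul, Matrix.trace_units_conj, Dg_trace, Dg_trace] at htr
  have ha0 : (a : ℝ) ≠ 0 := a.ne_zero
  have hb0 : (b : ℝ) ≠ 0 := b.ne_zero
  simp [uu] at hdet htr
  have hc4 : ((c : ℝ) ^ 2) ^ 2 = 1 := by
    field_simp at hdet
    nlinarith [hdet]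
  have hc2 : (c : ℝ) ^ 2 = 1 := by
    have : 0 ≤ (c : ℝ) ^ 2 := sq_nonneg _
    nlinarith
  have key : (a : ℝ) ^ 2 + ((a : ℝ) ^ 2)⁻¹ = (b : ℝ) ^ 2 + ((b : ℝ) ^ 2)⁻¹ := by
    simp only [mul_pow, hc2, mul_one, inv_pow] at htr
    linarith
  have hA : 1 < (a : ℝ) ^ 2 := by nlinarith
  have hB : 1 < (b : ℝ) ^ 2 := by nlinarith
  have hAB : (a : ℝ) ^ 2 = (b : ℝ) ^ 2 := by
    set A := (a : ℝ) ^ 2
    set B := (b : ℝ) ^ 2
    have hA0 : A ≠ 0 := by linarith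
    have hB0 : B ≠ 0 := by linarith
    field_simp at key
    have : (A - B) * (A * B - 1) = 0 := by nlinarith [key]
    rcases mul_eq_zero.1 this with h | h
    · linarith
    · nlinarith
  nlinarith [hAB]

end Pool.Agent.H452.NCI
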